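import Mathlib

/-!
Copy of the proof of the inequality for connected sets (Pool.Agent.S07895), for graphs on vertex
sets in any universe.
-/

set_option autoImplicit false
set_option linter.unusedSectionVars false
open Classical

namespace Pool.Agent.Helper37.OWN.ConnSets

universe u

variable {V : Type u} [Fintype V] (G : SimpleGraph V)

/-- `C` is a connected set of the graph `G`. -/
def cn (C : Finset V) : Prop := (G.induce (C : Set V)).Connected

variable {G}

theorem cn_nonempty {C : Finset V} (h : cn G C) : C.Nonempty := by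
  obtain ⟨⟨x, hx⟩⟩ := h.nonempty
  exact ⟨x, hx⟩

theorem not_cn_empty : ¬ cn G (∅ : Finset V) := by
  intro h
  exact Finset.not_nonempty_empty (cn_nonempty h)

theorem cn_singleton (v : V) : cn G {v} := by
  unfold cn
  have : ((({v} : Finset V) : Set V)) = {v} := by simp
  rw [this]
  have : Nonempty ({v} : Set V) := ⟨⟨v, rfl⟩⟩
  exact SimpleGraph.Connected.of_subsingleton

theorem cn_union {C D : Finset V} (hC : cn G C) (hD : cn G D) {u v : V} (hu : u ∈ C)
    (hv : v ∈ D) (h : G.Adj u v) : cn G (C ∪ D) := by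
  unfold cn at *
  rw [Finset.coe_union]
  exact SimpleGraph.connected_induce_union hC.preconnected hD.preconnected hu hv h

theorem cn_insert {C : Finset V} (hC : cn G C) {u v : V} (hu : u ∈ C) (h : G.Adj u v) :
    cn G (insert v C) := by
  have := cn_union (cn_singleton (G := G) v) hC (Finset.mem_singleton_self v) hu h.symm
  rwa [← Finset.insert_eq] at this

theorem cn_closed {C : Finset V} (hC : cn G C) {x : V} (hx : x ∈ C) (A : V → Prop) (hA : A x)
    (hcl : ∀ y ∈ C, ∀ z ∈ C, A y → G.Adj y z → A z) : ∀ y ∈ C, A y := by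
  intro y hy
  have hr : (G.induce (C : Set V)).Reachable ⟨x, hx⟩ ⟨y, hy⟩ := hC.preconnected _ _
  obtain ⟨p⟩ := hr
  have key : ∀ (a b : (C : Set V)) (p : (G.induce (C : Set V)).Walk a b), A a → A b := by
    intro a b p
    induction p with
    | nil => exact id
    | @cons a b c hab _ ih =>
      intro ha
      exact ih (hcl a a.2 b b.2 ha (by simpa using hab))
  exact key _ _ p hA

theorem cn_pair {a b : V} (hab : a ≠ b) (h : cn G {a, b}) : G.Adj a b := by
  by_contra hn
  have := cn_closed h (x := a) (by simp) (fun y => y = a) rfl (by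
    intro y hy z hz hya hyz
    subst hya
    simp only [Finset.mem_insert, Finset.mem_singleton] at hz
    rcases hz with rfl | rfl
    · rfl
    · exact absurd hyz hn) b (by simp)
  exact hab this.symm

/-- Pairs `(C, v)` where `C ⊆ R` is connected and `v ∉ R` is adjacent to `C`. -/
noncomputable def P (G : SimpleGraph V) (R : Finset V) : Finset (Finset V × V) :=
  Finset.univ.filter (fun p => p.1 ⊆ R ∧ cn G p.1 ∧ p.2 ∉ R ∧ ∃ u ∈ p.1, G.Adj u p.2)

theorem mem_P {R : Finset V} {C : Finset V} {v : V} :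
    (C, v) ∈ P G R ↔ C ⊆ R ∧ cn G C ∧ v ∉ R ∧ ∃ u ∈ C, G.Adj u v := by
  simp [P]

theorem step {R : Finset V} {w v : V} (hw : w ∈ R) (hv : v ∉ R) (hwv : G.Adj w v)
    (E : Finset (Finset V × V))
    (hE : ∀ p ∈ E, p ∈ P G R ∧ w ∈ p.1 ∧ (p.2 = v → ¬ cn G (p.1.erase w))) :
    (P G (R.erase w)).card + E.card ≤ (P G R).card := by
  let ι : Finset V × V → Finset V × V := fun p => if p.2 = w then (insert w p.1, v) else p
  have hsub : (P G (R.erase w)).image ι ⊆ P G R := by
    intro q hq
    rw [Finset.mem_image] at hq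
    obtain ⟨⟨C, x⟩, hp, rfl⟩ := hq
    rw [mem_P] at hp
    obtain ⟨h1, h2, h3, u, hu, hux⟩ := hp
    by_cases hx : x = w
    · subst hx
      simp only [ι, if_true]
      rw [mem_P]
      refine ⟨?_, cn_insert h2 hu hux, hv, x, Finset.mem_insert_self _ _, hwv⟩
      intro y hy
      rw [Finset.mem_insert] at hy
      rcases hy with rfl | hy
      · exact hw
      · exact Finset.mem_of_mem_erase (h1 hy)
    · simp only [ι, hx, if_false]
      rw [mem_P]
      refine ⟨fun y hy => Finset.mem_of_mem_erase (h1 hy), h2, ?_, u, hu, hux⟩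
      intro hxR
      exact h3 (Finset.mem_erase.mpr ⟨hx, hxR⟩)
  have hnw : ∀ p ∈ P G (R.erase w), w ∉ p.1 := by
    rintro ⟨C, x⟩ hp hwC
    rw [mem_P] at hp
    exact Finset.notMem_erase w R (hp.1 hwC)
  have hinj : Set.InjOn ι (P G (R.erase w)) := by
    rintro ⟨C, x⟩ hp ⟨D, y⟩ hq heq
    have hwC := hnw _ hp
    have hwD := hnw _ hq
    by_cases hx : x = w <;> by_cases hy : y = w
    · simp only [ι, hx, hy, if_true, Prod.mk.injEq, and_true] at heq
      have : C = D := by
        have h := congrArg (fun S => Finset.erase S w) heq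
        simpa [Finset.erase_insert hwC, Finset.erase_insert hwD] using h
      rw [this, hx, hy]
    · simp only [ι, hx, hy, if_true, if_false, Prod.mk.injEq] at heq
      exact absurd (heq.1 ▸ Finset.mem_insert_self w C) hwD
    · simp only [ι, hx, hy, if_true, if_false, Prod.mk.injEq] at heq
      exact absurd (heq.1.symm ▸ Finset.mem_insert_self w D) hwC
    · simpa only [ι, hx, hy, if_false] using heq
  have hdisj : Disjoint ((P G (R.erase w)).image ι) E := by
    rw [Finset.disjoint_left]
    intro q hq hqE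
    rw [Finset.mem_image] at hq
    obtain ⟨⟨C, x⟩, hp, rfl⟩ := hq
    obtain ⟨-, hwq, hcut⟩ := hE _ hqE
    have hwC := hnw _ hp
    by_cases hx : x = w
    · simp only [ι, hx, if_true] at hcut
      apply hcut trivial
      rw [Finset.erase_insert hwC]
      exact (mem_P.mp hp).2.1
    · simp only [ι, hx, if_false] at hwq
      exact hwC hwq
  calc (P G (R.erase w)).card + E.card = ((P G (R.erase w)).image ι).card + E.card := by
        rw [Finset.card_image_of_injOn hinj]
    _ = (((P G (R.erase w)).image ι) ∪ E).card := by rw [Finset.card_union_of_disjoint hdisj]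
    _ ≤ (P G R).card := by
        apply Finset.card_le_card
        apply Finset.union_subset hsub
        intro q hq
        exact (hE q hq).1

theorem exists_port (hG : G.Connected) {R : Finset V} (hR : R.Nonempty) (hR' : R ≠ Finset.univ) :
    ∃ w ∈ R, ∃ v, v ∉ R ∧ G.Adj w v := by
  by_contra hcon
  push Not at hcon
  apply hR'
  obtain ⟨x, hx⟩ := hR
  rw [Finset.eq_univ_iff_forall]
  intro y
  obtain ⟨p⟩ := hG.preconnected x y
  have key : ∀ (a b : V) (p : G.Walk a b), a ∈ R → b ∈ R := by
    intro a b p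
    induction p with
    | nil => exact id
    | @cons a b c hab _ ih =>
      intro ha
      apply ih
      by_contra hb
      exact hcon a ha b hb hab
  exact key _ _ p hx

/-- The key lemma: for a proper subset `R`, the pairs `(C, v)` number at least `2 |R|`. -/
theorem key_lemma (hG : G.Connected)
    (hdeg : ∀ v : V, ∀ S : Finset V, S.card ≤ 2 → ∃ u, G.Adj v u ∧ u ∉ S) :
    ∀ R : Finset V, R ≠ Finset.univ → 2 * R.card ≤ (P G R).card := by
  intro R
  induction R using Finset.strongInduction with
  | H R ih =>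
  intro hRu
  by_cases hRe : R.Nonempty
  swap
  · rw [Finset.not_nonempty_iff_eq_empty] at hRe
    subst hRe
    simp
  obtain ⟨w, hw, v, hv, hwv⟩ := exists_port hG hRe hRu
  have hwv' : w ≠ v := fun h => hv (h ▸ hw)
  have herase_ne : ∀ (S : Finset V) (x : V), S.erase x ≠ Finset.univ := by
    intro S x h
    have := Finset.mem_univ x
    rw [← h] at this
    exact Finset.notMem_erase x S this
  set R₁ := R.erase w with hR₁
  have hR₁s : R₁ ⊂ R := Finset.erase_ssubset hw
  have hR₁c : R₁.card + 1 = R.card := Finset.card_erase_add_one hw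
  have ih₁ := ih R₁ hR₁s (herase_ne R w)
  have hw₁ : w ∉ R₁ := Finset.notMem_erase w R
  have hsw : (({w} : Finset V), v) ∈ P G R := by
    rw [mem_P]
    exact ⟨by simpa using hw, cn_singleton w, hv, w, by simp, hwv⟩
  by_cases h2 : ∃ p ∈ P G R, p ≠ (({w} : Finset V), v) ∧ w ∈ p.1 ∧ (p.2 = v → ¬ cn G (p.1.erase w))
  · obtain ⟨p, hp, hpne, hwp, hpc⟩ := h2
    have := step hw hv hwv {(({w} : Finset V), v), p} (by
      intro q hq
      rw [Finset.mem_insert, Finset.mem_singleton] at hq
      rcases hq with rfl | rfl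
      · refine ⟨hsw, by simp, fun _ => ?_⟩
        simpa using not_cn_empty
      · exact ⟨hp, hwp, hpc⟩)
    rw [Finset.card_pair hpne.symm, ← hR₁] at this
    omega
  -- the exceptional case
  push Not at h2
  have f1 : ∀ (C : Finset V) (x : V), C ⊆ R → cn G C → w ∈ C → x ∉ R → (∃ u ∈ C, G.Adj u x) →
      x = v := by
    intro C x hC hcC hwC hx hadj
    by_contra hxv
    have hmem : (C, x) ∈ P G R := mem_P.mpr ⟨hC, hcC, hx, hadj⟩
    by_cases hne : (C, x) = (({w} : Finset V), v)
    · exact hxv (congrArg Prod.snd hne)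
    · exact absurd (h2 _ hmem hne hwC) (by
        intro h
        exact hxv h.1)
  have f2 : ∀ (C : Finset V), C ⊆ R → cn G C → w ∈ C → C ≠ {w} → cn G (C.erase w) := by
    intro C hC hcC hwC hCw
    have hmem : (C, v) ∈ P G R := mem_P.mpr ⟨hC, hcC, hv, w, hwC, hwv⟩
    have hne : (C, v) ≠ (({w} : Finset V), v) := fun h => hCw (congrArg Prod.fst h)
    exact (h2 _ hmem hne hwC).2
  have step_w : (P G R₁).card + 1 ≤ (P G R).card := by
    have := step hw hv hwv {(({w} : Finset V), v)} (by
      intro q hq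
      rw [Finset.mem_singleton] at hq
      subst hq
      refine ⟨hsw, by simp, fun _ => ?_⟩
      simpa using not_cn_empty)
    simpa using this
  have nbr_w : ∀ x, G.Adj w x → x ≠ v → x ∈ R := by
    intro x hx hxv
    by_contra hxR
    exact hxv (f1 {w} x (by simpa using hw) (cn_singleton w) (by simp) hxR ⟨w, by simp, hx⟩)
  obtain ⟨a, hwa, ha'⟩ := hdeg w {v} (by simp)
  have hav' : a ≠ v := by simpa using ha'
  have haR : a ∈ R := nbr_w a hwa hav'
  obtain ⟨b, hwb, hb'⟩ := hdeg w {v, a} Finset.card_le_two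
  have hbv' : b ≠ v := fun h => hb' (by simp [h])
  have hba' : b ≠ a := fun h => hb' (by simp [h])
  have hbR : b ∈ R := nbr_w b hwb hbv'
  have hwa' : w ≠ a := hwa.ne
  have hwb' : w ≠ b := hwb.ne
  have hab : G.Adj a b := by
    have hc : cn G (insert a (insert w {b})) := by
      apply cn_insert (u := w) _ (by simp) hwa
      exact cn_insert (cn_singleton b) (by simp) hwb.symm
    have h3 := f2 _ (by
      intro x hx
      simp only [Finset.mem_insert, Finset.mem_singleton] at hx
      rcases hx with rfl | rfl | rfl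
      · exact haR
      · exact hw
      · exact hbR) hc (by simp) (by
      intro h
      have : a ∈ ({w} : Finset V) := by rw [← h]; simp
      exact hwa' (Finset.mem_singleton.mp this).symm)
    have h4 : (insert a (insert w ({b} : Finset V))).erase w = {a, b} := by
      ext x
      simp only [Finset.mem_erase, Finset.mem_insert, Finset.mem_singleton]
      constructor
      · rintro ⟨h1, h2 | h2 | h2⟩
        · exact Or.inl h2
        · exact absurd h2 h1
        · exact Or.inr h2
      · rintro (h | h)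
        · exact ⟨by rw [h]; exact hwa'.symm, Or.inl h⟩
        · exact ⟨by rw [h]; exact hwb'.symm, Or.inr (Or.inr h)⟩
    rw [h4] at h3
    exact cn_pair hba'.symm h3
  have ha₁ : a ∈ R₁ := Finset.mem_erase.mpr ⟨hwa'.symm, haR⟩
  have hb₁ : b ∈ R₁ := Finset.mem_erase.mpr ⟨hwb'.symm, hbR⟩
  -- case A
  have caseA : ∀ a b : V, a ∈ R₁ → b ∈ R₁ → a ≠ b → G.Adj w a → G.Adj a b → G.Adj a v →
      2 * R.card ≤ (P G R).card := by
    intro a b ha hb hab' hwa hab hav
    have hR₂c : (R₁.erase a).card + 1 = R₁.card := Finset.card_erase_add_one ha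
    have ih₂ := ih (R₁.erase a) ((Finset.erase_ssubset ha).trans hR₁s) (herase_ne _ _)
    have hv₁ : v ∉ R₁ := fun h => hv (Finset.mem_of_mem_erase h)
    have := step ha hw₁ hwa.symm
      {(({a} : Finset V), w), (({a} : Finset V), v), (insert a ({b} : Finset V), v)} (by
      intro q hq
      simp only [Finset.mem_insert, Finset.mem_singleton] at hq
      rcases hq with rfl | rfl | rfl
      · refine ⟨mem_P.mpr ⟨by simpa using ha, cn_singleton a, hw₁, a, by simp, hwa.symm⟩,
          by simp, fun _ => ?_⟩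
        simpa using not_cn_empty
      · refine ⟨mem_P.mpr ⟨by simpa using ha, cn_singleton a, hv₁, a, by simp, hav⟩,
          by simp, fun h => absurd h hwv'.symm⟩
      · refine ⟨mem_P.mpr ⟨?_, cn_insert (cn_singleton b) (by simp) hab.symm, hv₁, a, by simp, hav⟩,
          by simp, fun h => absurd h hwv'.symm⟩
        intro x hx
        simp only [Finset.mem_insert, Finset.mem_singleton] at hx
        rcases hx with rfl | rfl
        · exact ha
        · exact hb)
    have hcard : ({(({a} : Finset V), w), (({a} : Finset V), v), (insert a ({b} : Finset V), v)} :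
        Finset (Finset V × V)).card = 3 := by
      rw [Finset.card_insert_of_notMem, Finset.card_pair]
      · intro h
        have h0 : ({a} : Finset V) = insert a {b} := congrArg Prod.fst h
        have h1 : b ∈ ({a} : Finset V) := by rw [h0]; simp
        exact hab' (Finset.mem_singleton.mp h1).symm
      · simp only [Finset.mem_insert, Finset.mem_singleton, Prod.mk.injEq, not_or, not_and]
        exact ⟨fun _ => hwv', fun _ => hwv'⟩
    rw [hcard] at this
    omega
  by_cases hav : G.Adj a v
  · exact caseA a b ha₁ hb₁ hba'.symm hwa hab hav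
  by_cases hbv : G.Adj b v
  · exact caseA b a hb₁ ha₁ hba' hwb hab.symm hbv
  -- case B
  set R₂ := R₁.erase a with hR₂
  have hR₂s : R₂ ⊂ R₁ := Finset.erase_ssubset ha₁
  have hR₂c : R₂.card + 1 = R₁.card := Finset.card_erase_add_one ha₁
  have hb₂ : b ∈ R₂ := Finset.mem_erase.mpr ⟨hba', hb₁⟩
  have ha₂ : a ∉ R₂ := Finset.notMem_erase a R₁
  have hw₂ : w ∉ R₂ := fun h => hw₁ (Finset.mem_of_mem_erase h)
  set R₃ := R₂.erase b with hR₃
  have hR₃s : R₃ ⊂ R₂ := Finset.erase_ssubset hb₂
  have hR₃c : R₃.card + 1 = R₂.card := Finset.card_erase_add_one hb₂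
  have hb₃ : b ∉ R₃ := Finset.notMem_erase b R₂
  have ha₃ : a ∉ R₃ := fun h => ha₂ (Finset.mem_of_mem_erase h)
  have hw₃ : w ∉ R₃ := fun h => hw₂ (Finset.mem_of_mem_erase h)
  have ih₃ := ih R₃ (hR₃s.trans (hR₂s.trans hR₁s)) (herase_ne _ _)
  have mem₃ : ∀ x, x ∈ R₃ ↔ x ≠ b ∧ x ≠ a ∧ x ≠ w ∧ x ∈ R := by
    intro x
    rw [hR₃, Finset.mem_erase, hR₂, Finset.mem_erase, hR₁, Finset.mem_erase]
  have h₃₂ : R₃ ⊆ R₂ := hR₃s.1
  have h₂₁ : R₂ ⊆ R₁ := hR₂s.1
  have h₁ : R₁ ⊆ R := hR₁s.1
  -- singletons
  have mem_a_w : (({a} : Finset V), w) ∈ P G R₁ :=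
    mem_P.mpr ⟨by simpa using ha₁, cn_singleton a, hw₁, a, by simp, hwa.symm⟩
  have mem_b_w : (({b} : Finset V), w) ∈ P G R₂ :=
    mem_P.mpr ⟨by simpa using hb₂, cn_singleton b, hw₂, b, by simp, hwb.symm⟩
  have mem_b_a : (({b} : Finset V), a) ∈ P G R₂ :=
    mem_P.mpr ⟨by simpa using hb₂, cn_singleton b, ha₂, b, by simp, hab.symm⟩
  have step_a : (P G R₂).card + 1 ≤ (P G R₁).card := by
    have := step ha₁ hw₁ hwa.symm {(({a} : Finset V), w)} (by
      intro q hq
      rw [Finset.mem_singleton] at hq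
      subst hq
      refine ⟨mem_a_w, by simp, fun _ => ?_⟩
      simpa using not_cn_empty)
    simpa using this
  -- a two-element bound for the deletion of `a`
  have step_a2 : ∀ q : Finset V × V, q ∈ P G R₁ → q ≠ (({a} : Finset V), w) → a ∈ q.1 →
      (q.2 = w → ¬ cn G (q.1.erase a)) → (P G R₂).card + 2 ≤ (P G R₁).card := by
    intro q hq hne haq hqc
    have := step ha₁ hw₁ hwa.symm {(({a} : Finset V), w), q} (by
      intro q' hq'
      rw [Finset.mem_insert, Finset.mem_singleton] at hq'
      rcases hq' with rfl | rfl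
      · refine ⟨mem_a_w, by simp, fun _ => ?_⟩
        simpa using not_cn_empty
      · exact ⟨hq, haq, hqc⟩)
    rw [Finset.card_pair hne.symm] at this
    exact this
  obtain ⟨c, hbc, hc'⟩ := hdeg b {w, a} Finset.card_le_two
  have hcw' : c ≠ w := fun h => hc' (by simp [h])
  have hca' : c ≠ a := fun h => hc' (by simp [h])
  have hcb' : c ≠ b := hbc.ne'
  have cn_wb : cn G (insert b ({w} : Finset V)) := cn_insert (cn_singleton w) (by simp) hwb
  have sub_wb : (insert b ({w} : Finset V)) ⊆ R := by
    intro x hx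
    simp only [Finset.mem_insert, Finset.mem_singleton] at hx
    rcases hx with rfl | rfl
    · exact hbR
    · exact hw
  have hcR : c ∈ R := by
    by_contra hcR
    have := f1 _ c sub_wb cn_wb (by simp) hcR ⟨b, by simp, hbc⟩
    exact hbv (this ▸ hbc)
  have hc₃ : c ∈ R₃ := (mem₃ c).mpr ⟨hcb', hca', hcw', hcR⟩
  have mem_bc_a : ((insert b ({c} : Finset V)), a) ∈ P G R₂ := by
    refine mem_P.mpr ⟨?_, cn_insert (cn_singleton c) (by simp) hbc.symm, ha₂, b, by simp, hab.symm⟩
    intro x hx
    simp only [Finset.mem_insert, Finset.mem_singleton] at hx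
    rcases hx with rfl | rfl
    · exact hb₂
    · exact h₃₂ hc₃
  have hbne : ∀ C : Finset V, C ⊆ R₃ → C.Nonempty → insert b C ≠ {b} := by
    intro C hC hCn h
    obtain ⟨y, hy⟩ := hCn
    have h1 : y ∈ ({b} : Finset V) := by rw [← h]; exact Finset.mem_insert_of_mem hy
    have h2 : y = b := by simpa using h1
    exact hb₃ (h2 ▸ hC hy)
  have hsc : ({c} : Finset V) ⊆ R₃ := by simpa using hc₃
  have hbne_c := hbne {c} hsc (Finset.singleton_nonempty c)
  have card3 : ({(({b} : Finset V), w), (({b} : Finset V), a), (insert b ({c} : Finset V), a)} :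
      Finset (Finset V × V)).card = 3 := by
    rw [Finset.card_insert_of_notMem, Finset.card_pair]
    · intro h
      exact hbne_c (congrArg Prod.fst h).symm
    · simp only [Finset.mem_insert, Finset.mem_singleton, Prod.mk.injEq, not_or, not_and]
      exact ⟨fun _ => hwa', fun _ => hwa'⟩
  by_cases hM : ∃ C : Finset V, C ⊆ R₃ ∧ cn G C ∧ (∃ u ∈ C, G.Adj u b) ∧ C ≠ {c}
  · obtain ⟨C, hC, hcC, ⟨u, hu, hub⟩, hCc⟩ := hM
    have := step hb₂ hw₂ hwb.symm
      {(insert b C, a), (({b} : Finset V), w), (({b} : Finset V), a),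
        (insert b ({c} : Finset V), a)} (by
      intro q hq
      simp only [Finset.mem_insert, Finset.mem_singleton] at hq
      rcases hq with rfl | rfl | rfl | rfl
      · refine ⟨mem_P.mpr ⟨?_, cn_insert hcC hu hub, ha₂, b, by simp, hab.symm⟩,
          by simp, fun h => absurd h hwa'.symm⟩
        intro x hx
        rw [Finset.mem_insert] at hx
        rcases hx with rfl | hx
        · exact hb₂
        · exact h₃₂ (hC hx)
      · refine ⟨mem_b_w, by simp, fun _ => ?_⟩
        simpa using not_cn_empty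
      · exact ⟨mem_b_a, by simp, fun h => absurd h hwa'.symm⟩
      · exact ⟨mem_bc_a, by simp, fun h => absurd h hwa'.symm⟩)
    rw [Finset.card_insert_of_notMem, card3, ← hR₃] at this
    · omega
    · have hn := hbne C hC (cn_nonempty hcC)
      simp only [Finset.mem_insert, Finset.mem_singleton, Prod.mk.injEq, not_or, not_and]
      refine ⟨fun h => absurd h hn, fun h => absurd h hn, fun h => absurd ?_ hCc⟩
      have h5 := congrArg (fun S => Finset.erase S b) h
      have hbC : b ∉ C := fun h => hb₃ (hC h)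
      have hbc2 : b ∉ ({c} : Finset V) := by simpa using hcb'.symm
      simpa [Finset.erase_insert hbC, Finset.erase_insert hbc2] using h5
  push Not at hM
  have g1 : ∀ d ∈ R₃, G.Adj d b → d = c := by
    intro d hd hdb
    have := hM {d} (by simpa using hd) (cn_singleton d) ⟨d, by simp, hdb⟩
    simpa using this
  have g2 : ∀ d ∈ R₃, ¬ G.Adj c d := by
    intro d hd hcd
    have := hM (insert d {c}) (by
      intro x hx
      simp only [Finset.mem_insert, Finset.mem_singleton] at hx
      rcases hx with rfl | rfl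
      · exact hd
      · exact hc₃) (cn_insert (cn_singleton c) (by simp) hcd) ⟨c, by simp, hbc.symm⟩
    have h1 : d ∈ ({c} : Finset V) := by rw [← this]; simp
    exact hcd.ne (Finset.mem_singleton.mp h1).symm
  have step_b : (P G R₃).card + 3 ≤ (P G R₂).card := by
    have := step hb₂ hw₂ hwb.symm
      {(({b} : Finset V), w), (({b} : Finset V), a), (insert b ({c} : Finset V), a)} (by
      intro q hq
      simp only [Finset.mem_insert, Finset.mem_singleton] at hq
      rcases hq with rfl | rfl | rfl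
      · refine ⟨mem_b_w, by simp, fun _ => ?_⟩
        simpa using not_cn_empty
      · exact ⟨mem_b_a, by simp, fun h => absurd h hwa'.symm⟩
      · exact ⟨mem_bc_a, by simp, fun h => absurd h hwa'.symm⟩)
    rw [card3] at this
    exact this
  by_cases hd : ∃ d ∈ R₃, d ≠ c ∧ G.Adj a d
  · obtain ⟨d, hd₃, hdc, had⟩ := hd
    have hdb' : d ≠ b := fun h => hb₃ (h ▸ hd₃)
    have hda' : d ≠ a := fun h => ha₃ (h ▸ hd₃)
    have := step_a2 (insert d (insert b {a}), w) (mem_P.mpr ⟨by
        intro x hx
        simp only [Finset.mem_insert, Finset.mem_singleton] at hx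
        rcases hx with rfl | rfl | rfl
        · exact h₂₁ (h₃₂ hd₃)
        · exact hb₁
        · exact ha₁, cn_insert (cn_insert (cn_singleton a) (by simp) hab) (by simp) had, hw₁, a,
        by simp, hwa.symm⟩) (by
        intro h
        have h0 : insert d (insert b {a}) = ({a} : Finset V) := congrArg Prod.fst h
        have h1 : b ∈ ({a} : Finset V) := by rw [← h0]; simp
        exact hba' (Finset.mem_singleton.mp h1)) (by simp) (by
        intro _ h
        have h4 : (insert d (insert b ({a} : Finset V))).erase a = {d, b} := by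
          ext x
          simp only [Finset.mem_erase, Finset.mem_insert, Finset.mem_singleton]
          constructor
          · rintro ⟨h1, h2 | h2 | h2⟩
            · exact Or.inl h2
            · exact Or.inr h2
            · exact absurd h2 h1
          · rintro (h | h)
            · exact ⟨by rw [h]; exact hda', Or.inl h⟩
            · exact ⟨by rw [h]; exact hba', Or.inr (Or.inl h)⟩
        simp only [h4] at h
        exact hdc (g1 d hd₃ (cn_pair hdb' h)))
    omega
  push Not at hd
  have cn_wa : cn G (insert a ({w} : Finset V)) := cn_insert (cn_singleton w) (by simp) hwa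
  have sub_wa : (insert a ({w} : Finset V)) ⊆ R := by
    intro x hx
    simp only [Finset.mem_insert, Finset.mem_singleton] at hx
    rcases hx with rfl | rfl
    · exact haR
    · exact hw
  have hac : G.Adj a c := by
    obtain ⟨e, hae, he'⟩ := hdeg a {w, b} Finset.card_le_two
    have hew' : e ≠ w := fun h => he' (by simp [h])
    have heb' : e ≠ b := fun h => he' (by simp [h])
    have heR : e ∈ R := by
      by_contra heR
      have := f1 _ e sub_wa cn_wa (by simp) heR ⟨a, by simp, hae⟩
      exact hav (this ▸ hae)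
    have he₃ : e ∈ R₃ := (mem₃ e).mpr ⟨heb', hae.ne', hew', heR⟩
    by_contra hac
    have hec : e ≠ c := fun h => hac (h ▸ hae)
    exact hd e he₃ hec hae
  by_cases hcv : G.Adj c v
  · have hv₁ : v ∉ R₁ := fun h => hv (h₁ h)
    have := step_a2 (insert c {a}, v) (mem_P.mpr ⟨by
        intro x hx
        simp only [Finset.mem_insert, Finset.mem_singleton] at hx
        rcases hx with rfl | rfl
        · exact h₂₁ (h₃₂ hc₃)
        · exact ha₁, cn_insert (cn_singleton a) (by simp) hac, hv₁, c, by simp, hcv⟩) (by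
        intro h
        exact hwv' (congrArg Prod.snd h).symm) (by simp) (fun h => absurd h hwv'.symm)
    omega
  · have hcw : G.Adj c w := by
      obtain ⟨e, hce, he'⟩ := hdeg c {a, b} Finset.card_le_two
      have hea' : e ≠ a := fun h => he' (by simp [h])
      have heb' : e ≠ b := fun h => he' (by simp [h])
      have heR : e ∈ R := by
        by_contra heR
        have := f1 (insert c (insert b {w})) e (by
          intro x hx
          rw [Finset.mem_insert] at hx
          rcases hx with rfl | hx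
          · exact hcR
          · exact sub_wb hx) (cn_insert cn_wb (by simp) hbc) (by simp) heR ⟨c, by simp, hce⟩
        exact hcv (this ▸ hce)
      by_contra hcw
      have hew' : e ≠ w := fun h => hcw (h ▸ hce)
      exact g2 e ((mem₃ e).mpr ⟨heb', hea', hew', heR⟩) hce
    have hR₄c : (R₃.erase c).card + 1 = R₃.card := Finset.card_erase_add_one hc₃
    have ih₄ := ih (R₃.erase c)
      ((Finset.erase_ssubset hc₃).trans (hR₃s.trans (hR₂s.trans hR₁s))) (herase_ne _ _)
    have := step hc₃ hw₃ hcw
      {(({c} : Finset V), w), (({c} : Finset V), a), (({c} : Finset V), b)} (by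
      intro q hq
      simp only [Finset.mem_insert, Finset.mem_singleton] at hq
      rcases hq with rfl | rfl | rfl
      · refine ⟨mem_P.mpr ⟨hsc, cn_singleton c, hw₃, c, by simp, hcw⟩, by simp, fun _ => ?_⟩
        simpa using not_cn_empty
      · exact ⟨mem_P.mpr ⟨hsc, cn_singleton c, ha₃, c, by simp, hac.symm⟩, by simp,
          fun h => absurd h hwa'.symm⟩
      · exact ⟨mem_P.mpr ⟨hsc, cn_singleton c, hb₃, c, by simp, hbc.symm⟩, by simp,
          fun h => absurd h hwb'.symm⟩)
    have hcard : ({(({c} : Finset V), w), (({c} : Finset V), a), (({c} : Finset V), b)} :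
        Finset (Finset V × V)).card = 3 := by
      rw [Finset.card_insert_of_notMem, Finset.card_pair]
      · intro h
        exact hba' (congrArg Prod.snd h).symm
      · simp only [Finset.mem_insert, Finset.mem_singleton, Prod.mk.injEq, not_or, not_and]
        exact ⟨fun _ => hwa', fun _ => hwb'⟩
    rw [hcard] at this
    omega

/-- Vertices outside the closed neighbourhood of `U`. -/
noncomputable def Rem (G : SimpleGraph V) (U : Finset V) : Finset V :=
  Finset.univ.filter (fun w => w ∉ U ∧ ∀ u ∈ U, ¬ G.Adj u w)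

/-- Outer neighbours of `U`. -/
noncomputable def Nb (G : SimpleGraph V) (U : Finset V) : Finset V :=
  Finset.univ.filter (fun w => w ∉ U ∧ ∃ u ∈ U, G.Adj u w)

/-- The family of connected sets. -/
noncomputable def CS (G : SimpleGraph V) : Finset (Finset V) :=
  Finset.univ.filter (fun U => cn G U)

theorem mem_CS {U : Finset V} : U ∈ CS G ↔ cn G U := by simp [CS]

theorem mem_Rem {U : Finset V} {w : V} : w ∈ Rem G U ↔ w ∉ U ∧ ∀ u ∈ U, ¬ G.Adj u w := by
  simp [Rem]

theorem mem_Nb {U : Finset V} {w : V} : w ∈ Nb G U ↔ w ∉ U ∧ ∃ u ∈ U, G.Adj u w := by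
  simp [Nb]

theorem card_split (U : Finset V) :
    U.card + (Nb G U).card + (Rem G U).card = Fintype.card V := by
  have h1 : Disjoint U (Nb G U) := by
    rw [Finset.disjoint_left]
    intro x hx hx'
    exact (mem_Nb.mp hx').1 hx
  have h2 : Disjoint (U ∪ Nb G U) (Rem G U) := by
    rw [Finset.disjoint_left]
    intro x hx hx'
    rw [mem_Rem] at hx'
    rcases Finset.mem_union.mp hx with hx | hx
    · exact hx'.1 hx
    · obtain ⟨-, u, hu, hux⟩ := mem_Nb.mp hx
      exact hx'.2 u hu hux
  rw [← Finset.card_union_of_disjoint h1, ← Finset.card_union_of_disjoint h2, ← Finset.card_univ]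
  congr 1
  rw [Finset.eq_univ_iff_forall]
  intro x
  simp only [Finset.mem_union, mem_Nb, mem_Rem]
  by_cases hx : x ∈ U
  · exact Or.inl (Or.inl hx)
  · by_cases h : ∃ u ∈ U, G.Adj u x
    · exact Or.inl (Or.inr ⟨hx, h⟩)
    · right
      push Not at h
      exact ⟨hx, h⟩

/-- Cut pairs `(U, v)`: `U` connected, `v ∈ U`, `U \ {v}` nonempty and not connected. -/
noncomputable def K (G : SimpleGraph V) : Finset (Finset V × V) :=
  Finset.univ.filter (fun q => cn G q.1 ∧ q.2 ∈ q.1 ∧ (q.1.erase q.2).Nonempty ∧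
    ¬ cn G (q.1.erase q.2))

/-- Triples `(U, C, v)`. -/
noncomputable def T (G : SimpleGraph V) : Finset (Finset V × (Finset V × V)) :=
  (CS G).sigma (fun U => P G (Rem G U)) |>.map
    ⟨fun x => (x.1, x.2), by
      rintro ⟨a, b⟩ ⟨c, d⟩ h
      simp only [Prod.mk.injEq] at h
      obtain ⟨rfl, rfl⟩ := h
      rfl⟩

theorem mem_T {U C : Finset V} {v : V} : (U, (C, v)) ∈ T G ↔
    cn G U ∧ (C, v) ∈ P G (Rem G U) := by
  simp only [T, Finset.mem_map, Finset.mem_sigma, mem_CS, Function.Embedding.coeFn_mk]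
  constructor
  · rintro ⟨⟨a, b⟩, ⟨h1, h2⟩, h⟩
    cases h
    exact ⟨h1, h2⟩
  · rintro ⟨h1, h2⟩
    exact ⟨⟨U, (C, v)⟩, ⟨h1, h2⟩, rfl⟩

theorem card_T : (T G).card = ∑ U ∈ CS G, (P G (Rem G U)).card := by
  rw [T, Finset.card_map, Finset.card_sigma]

/-- Separated sets. -/
def sep (G : SimpleGraph V) (U C : Finset V) : Prop := ∀ x ∈ U, ∀ y ∈ C, x ≠ y ∧ ¬ G.Adj x y

theorem sep_symm {U C : Finset V} (h : sep G U C) : sep G C U := by
  intro x hx y hy
  exact ⟨(h y hy x hx).1.symm, fun hadj => (h y hy x hx).2 hadj.symm⟩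

theorem sub_of_sep {U U₀ C₀ : Finset V} (hU : cn G U) (hs : sep G U₀ C₀) (hsub : U ⊆ U₀ ∪ C₀)
    {x : V} (hx : x ∈ U) (hx₀ : x ∈ U₀) : U ⊆ U₀ := by
  intro y hy
  refine cn_closed hU hx (fun z => z ∈ U₀) hx₀ ?_ y hy
  intro y hy z hz hyU hyz
  rcases Finset.mem_union.mp (hsub hz) with h | h
  · exact h
  · exact absurd hyz (hs y hyU z h).2

theorem eq_of_sep {U U₀ C C₀ : Finset V} (hU : cn G U) (hU₀ : cn G U₀)
    (hs : sep G U C) (hs₀ : sep G U₀ C₀) (he : U ∪ C = U₀ ∪ C₀)
    {x : V} (hx : x ∈ U) (hx₀ : x ∈ U₀) : U = U₀ ∧ C = C₀ := by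
  have h1 : U ⊆ U₀ := sub_of_sep hU hs₀ (he ▸ Finset.subset_union_left) hx hx₀
  have h2 : U₀ ⊆ U := sub_of_sep hU₀ hs (he.symm ▸ Finset.subset_union_left) hx₀ hx
  have h3 : U = U₀ := Finset.Subset.antisymm h1 h2
  refine ⟨h3, ?_⟩
  subst h3
  ext y
  constructor
  · intro hy
    have : y ∈ U ∪ C₀ := by rw [← he]; exact Finset.mem_union_right _ hy
    rcases Finset.mem_union.mp this with h | h
    · exact absurd rfl (hs y h y hy).1
    · exact h
  · intro hy
    have : y ∈ U ∪ C := by rw [he]; exact Finset.mem_union_right _ hy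
    rcases Finset.mem_union.mp this with h | h
    · exact absurd rfl (hs₀ y h y hy).1
    · exact h

theorem T_facts {U C : Finset V} {v : V} (h : (U, (C, v)) ∈ T G) :
    cn G U ∧ cn G C ∧ sep G U C ∧ v ∉ U ∧ v ∉ C ∧ (∃ u ∈ U, G.Adj u v) ∧ (∃ u ∈ C, G.Adj u v) := by
  rw [mem_T, mem_P] at h
  obtain ⟨hU, hC, hcC, hv, u, hu, huv⟩ := h
  have hs : sep G U C := by
    intro x hx y hy
    have := mem_Rem.mp (hC hy)
    refine ⟨fun hxy => this.1 (hxy ▸ hx), this.2 x hx⟩
  have hvU : v ∉ U := by
    intro hvU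
    exact (hs v hvU u hu).2 huv.symm
  have hvC : v ∉ C := fun h => hv (hC h)
  refine ⟨hU, hcC, hs, hvU, hvC, ?_, u, hu, huv⟩
  by_contra hcon
  push Not at hcon
  exact hv (mem_Rem.mpr ⟨hvU, hcon⟩)

theorem card_T_le : (T G).card ≤ 2 * (K G).card := by
  let φ : Finset V × (Finset V × V) → Finset V × V := fun t => (insert t.2.2 (t.1 ∪ t.2.1), t.2.2)
  have hsub : (T G).image φ ⊆ K G := by
    intro q hq
    rw [Finset.mem_image] at hq
    obtain ⟨⟨U, C, v⟩, ht, rfl⟩ := hq
    obtain ⟨hU, hC, hs, hvU, hvC, ⟨u, hu, huv⟩, ⟨u', hu', huv'⟩⟩ := T_facts ht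
    have hv : v ∉ U ∪ C := by simp [hvU, hvC]
    simp only [K, φ, Finset.mem_filter, Finset.mem_univ, true_and]
    refine ⟨?_, Finset.mem_insert_self _ _, ?_, ?_⟩
    · have h1 : cn G (insert v C) := cn_insert hC hu' huv'
      have h2 := cn_union hU h1 hu (Finset.mem_insert_self v C) huv
      rwa [Finset.union_insert] at h2
    · rw [Finset.erase_insert hv]
      exact ⟨u, Finset.mem_union_left _ hu⟩
    · rw [Finset.erase_insert hv]
      intro hcon
      have := cn_closed hcon (Finset.mem_union_left C hu) (fun z => z ∈ U) hu (by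
        intro y _ z hz hyU hyz
        rcases Finset.mem_union.mp hz with h | h
        · exact h
        · exact absurd hyz (hs y hyU z h).2) u' (Finset.mem_union_right U hu')
      exact (hs u' this u' hu').1 rfl
  have hfib : ∀ a ∈ (T G).image φ, ((T G).filter (fun x => φ x = a)).card ≤ 2 := by
    intro a ha
    rw [Finset.mem_image] at ha
    obtain ⟨⟨U₀, C₀, v₀⟩, ht₀, rfl⟩ := ha
    obtain ⟨hU₀, hC₀, hs₀, hvU₀, hvC₀, -, -⟩ := T_facts ht₀
    refine le_trans (Finset.card_le_card (t := {(U₀, (C₀, v₀)), (C₀, (U₀, v₀))}) ?_)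
      Finset.card_le_two
    intro t ht
    rw [Finset.mem_filter] at ht
    obtain ⟨ht, heq⟩ := ht
    obtain ⟨U, C, v⟩ := t
    obtain ⟨hU, hC, hs, hvU, hvC, -, -⟩ := T_facts ht
    simp only [φ, Prod.mk.injEq] at heq
    obtain ⟨heq, rfl⟩ := heq
    have hv : v ∉ U ∪ C := by simp [hvU, hvC]
    have hv₀ : v ∉ U₀ ∪ C₀ := by simp [hvU₀, hvC₀]
    have he : U ∪ C = U₀ ∪ C₀ := by
      have h := congrArg (fun S => Finset.erase S v) heq
      simpa only [Finset.erase_insert hv, Finset.erase_insert hv₀] using h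
    obtain ⟨x, hx⟩ := cn_nonempty hU
    have hx' : x ∈ U₀ ∪ C₀ := by rw [← he]; exact Finset.mem_union_left _ hx
    rw [Finset.mem_insert, Finset.mem_singleton]
    rcases Finset.mem_union.mp hx' with h | h
    · left
      obtain ⟨h1, h2⟩ := eq_of_sep hU hU₀ hs hs₀ he hx h
      rw [h1, h2]
    · right
      obtain ⟨h1, h2⟩ := eq_of_sep hU hC₀ hs (sep_symm hs₀) (by rw [he, Finset.union_comm]) hx h
      rw [h1, h2]
  calc (T G).card ≤ 2 * ((T G).image φ).card := Finset.card_le_mul_card_image _ _ hfib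
    _ ≤ 2 * (K G).card := Nat.mul_le_mul_left 2 (Finset.card_le_card hsub)

/-- Flags `(U, v)` with `U` connected and `v ∈ U`. -/
noncomputable def FL (G : SimpleGraph V) : Finset (Finset V × V) :=
  Finset.univ.filter (fun q => cn G q.1 ∧ q.2 ∈ q.1)

theorem card_FL : (FL G).card = ∑ U ∈ CS G, U.card := by
  have : FL G = ((CS G).sigma (fun U => U)).map
    ⟨fun x => (x.1, x.2), by
      rintro ⟨a, b⟩ ⟨c, d⟩ h
      simp only [Prod.mk.injEq] at h
      obtain ⟨rfl, rfl⟩ := h
      rfl⟩ := by
    ext ⟨U, v⟩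
    simp only [FL, Finset.mem_filter, Finset.mem_univ, true_and, Finset.mem_map, Finset.mem_sigma,
      mem_CS, Function.Embedding.coeFn_mk]
    constructor
    · rintro ⟨h1, h2⟩
      exact ⟨⟨U, v⟩, ⟨h1, h2⟩, rfl⟩
    · rintro ⟨⟨a, b⟩, ⟨h1, h2⟩, h⟩
      cases h
      exact ⟨h1, h2⟩
  rw [this, Finset.card_map, Finset.card_sigma]

/-- Outer flags. -/
noncomputable def NF (G : SimpleGraph V) : Finset (Finset V × V) :=
  Finset.univ.filter (fun q => cn G q.1 ∧ q.2 ∈ Nb G q.1)

theorem card_NF : (NF G).card = ∑ U ∈ CS G, (Nb G U).card := by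
  have : NF G = ((CS G).sigma (fun U => Nb G U)).map
    ⟨fun x => (x.1, x.2), by
      rintro ⟨a, b⟩ ⟨c, d⟩ h
      simp only [Prod.mk.injEq] at h
      obtain ⟨rfl, rfl⟩ := h
      rfl⟩ := by
    ext ⟨U, v⟩
    simp only [NF, Finset.mem_filter, Finset.mem_univ, true_and, Finset.mem_map, Finset.mem_sigma,
      mem_CS, Function.Embedding.coeFn_mk]
    constructor
    · rintro ⟨h1, h2⟩
      exact ⟨⟨U, v⟩, ⟨h1, h2⟩, rfl⟩
    · rintro ⟨⟨a, b⟩, ⟨h1, h2⟩, h⟩
      cases h
      exact ⟨h1, h2⟩
  rw [this, Finset.card_map, Finset.card_sigma]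

theorem flags_bound : (NF G).card + (K G).card + Fintype.card V ≤ (FL G).card := by
  let ψ : Finset V × V → Finset V × V := fun q => (insert q.2 q.1, q.2)
  have hinj : Set.InjOn ψ (NF G) := by
    rintro ⟨U, v⟩ hp ⟨U', v'⟩ hq heq
    simp only [NF, Finset.coe_filter, Finset.mem_univ, true_and, Set.mem_ofPred_eq, mem_Nb] at hp hq
    simp only [ψ, Prod.mk.injEq] at heq
    obtain ⟨h1, rfl⟩ := heq
    have h := congrArg (fun S => Finset.erase S v) h1
    simp only [Finset.erase_insert hp.2.1, Finset.erase_insert hq.2.1] at h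
    rw [h]
  let σ : V → Finset V × V := fun v => ({v}, v)
  have hσ : Function.Injective σ := by
    intro a b h
    exact congrArg Prod.snd h
  have hd1 : Disjoint ((NF G).image ψ) (K G) := by
    rw [Finset.disjoint_left]
    intro q hq hqK
    rw [Finset.mem_image] at hq
    obtain ⟨⟨U, v⟩, hp, rfl⟩ := hq
    simp only [NF, Finset.mem_filter, Finset.mem_univ, true_and, mem_Nb] at hp
    simp only [K, ψ, Finset.mem_filter, Finset.mem_univ, true_and] at hqK
    apply hqK.2.2.2
    rw [Finset.erase_insert hp.2.1]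
    exact hp.1
  have hd2 : Disjoint (((NF G).image ψ) ∪ (K G)) (Finset.univ.image σ) := by
    rw [Finset.disjoint_left]
    intro q hq hqS
    rw [Finset.mem_image] at hqS
    obtain ⟨x, -, rfl⟩ := hqS
    rcases Finset.mem_union.mp hq with hq | hq
    · rw [Finset.mem_image] at hq
      obtain ⟨⟨U, v⟩, hp, heq⟩ := hq
      simp only [NF, Finset.mem_filter, Finset.mem_univ, true_and, mem_Nb] at hp
      simp only [ψ, σ, Prod.mk.injEq] at heq
      obtain ⟨h1, rfl⟩ := heq
      have h := congrArg (fun S => Finset.erase S v) h1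
      simp only [Finset.erase_insert hp.2.1, Finset.erase_singleton] at h
      exact not_cn_empty (h ▸ hp.1)
    · simp only [K, σ, Finset.mem_filter, Finset.mem_univ, true_and, Finset.erase_singleton] at hq
      exact absurd hq.2.2.1 Finset.not_nonempty_empty
  have hsub : (((NF G).image ψ) ∪ (K G)) ∪ (Finset.univ.image σ) ⊆ FL G := by
    intro q hq
    simp only [Finset.mem_union] at hq
    rcases hq with (hq | hq) | hq
    · rw [Finset.mem_image] at hq
      obtain ⟨⟨U, v⟩, hp, rfl⟩ := hq
      simp only [NF, Finset.mem_filter, Finset.mem_univ, true_and, mem_Nb] at hp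
      obtain ⟨hU, hv, u, hu, huv⟩ := hp
      simp only [FL, ψ, Finset.mem_filter, Finset.mem_univ, true_and]
      exact ⟨cn_insert hU hu huv, Finset.mem_insert_self _ _⟩
    · simp only [K, Finset.mem_filter, Finset.mem_univ, true_and] at hq
      simp only [FL, Finset.mem_filter, Finset.mem_univ, true_and]
      exact ⟨hq.1, hq.2.1⟩
    · rw [Finset.mem_image] at hq
      obtain ⟨x, -, rfl⟩ := hq
      simp only [FL, σ, Finset.mem_filter, Finset.mem_univ, true_and]
      exact ⟨cn_singleton x, Finset.mem_singleton_self x⟩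
  have h1 := Finset.card_le_card hsub
  rw [Finset.card_union_of_disjoint hd2, Finset.card_union_of_disjoint hd1,
    Finset.card_image_of_injOn hinj, Finset.card_image_of_injective _ hσ, Finset.card_univ] at h1
  exact h1

/-- The main inequality: the total excess is at least `n`. -/
theorem main_ineq (hG : G.Connected)
    (hdeg : ∀ v : V, ∀ S : Finset V, S.card ≤ 2 → ∃ u, G.Adj v u ∧ u ∉ S) :
    Fintype.card V * (CS G).card + Fintype.card V ≤ 2 * ∑ U ∈ CS G, U.card := by
  have h1 : ∑ U ∈ CS G, 2 * (Rem G U).card ≤ (T G).card := by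
    rw [card_T]
    apply Finset.sum_le_sum
    intro U hU
    apply key_lemma hG hdeg
    intro h
    obtain ⟨x, hx⟩ := cn_nonempty (mem_CS.mp hU)
    have : x ∈ Rem G U := by rw [h]; exact Finset.mem_univ x
    exact (mem_Rem.mp this).1 hx
  rw [← Finset.mul_sum] at h1
  have h2 := card_T_le (G := G)
  have h3 := flags_bound (G := G)
  rw [card_NF, card_FL] at h3
  have h4 : ∑ U ∈ CS G, U.card + ∑ U ∈ CS G, (Nb G U).card + ∑ U ∈ CS G, (Rem G U).card =
      Fintype.card V * (CS G).card := by
    rw [← Finset.sum_add_distrib, ← Finset.sum_add_distrib,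
      Finset.sum_congr rfl (fun U _ => card_split (G := G) U), Finset.sum_const, smul_eq_mul,
      mul_comm]
  omega

end Pool.Agent.Helper37.OWN.ConnSets
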